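import Pool.Agent.Lib.MP_1c8ed6_co.H76Flow

set_option autoImplicit false

namespace Pool.Agent.Results.MP_1c8ed6_co.BalancedOrientation

open Finset

/-- Let `G` be a finite multigraph (edge `e` joins `s e` and `t e`) in which every partition of the
vertex set into `p` parts is crossed by at least `τ (p - 1)` edges, where `τ ≥ m ≥ 1`. For every `β`
with `∑ β ≡ |E|` modulo `m` there is an orientation (`o e` is the tail of `e`) with out-degrees
congruent to `β` modulo `m` in which at least the fraction `(τ - m) / (2 τ)` of the edges of each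
cut leave the set. -/
theorem result (V E : Type) [Fintype V] [DecidableEq V] [Fintype E] [DecidableEq E] (s t : E → V)
    (m : ℕ) (hm : 0 < m) (τ : ℚ) (hτ : (m : ℚ) ≤ τ)
    (hP : ∀ P : Finpartition (univ : Finset V),
      τ * ((P.parts.card : ℚ) - 1) ≤ ((univ.filter fun e => P.part (s e) ≠ P.part (t e)).card : ℚ))
    (β : V → ℤ) (hβ : (m : ℤ) ∣ ∑ v, β v - (Fintype.card E : ℤ)) :
    ∃ o : E → V, (∀ e, o e = s e ∨ o e = t e) ∧
      (∀ v, (m : ℤ) ∣ ((univ.filter fun e => o e = v).card : ℤ) - β v) ∧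
      ∀ S : Finset V,
        (τ - (m : ℚ)) * ((univ.filter fun e => ¬ (s e ∈ S ↔ t e ∈ S)).card : ℚ) ≤
          2 * τ * ((univ.filter fun e => ¬ (s e ∈ S ↔ t e ∈ S) ∧ o e ∈ S).card : ℚ) :=
  Pool.Agent.Lib.MP_1c8ed6_co.Flow.balanced_of_partition s t m hm τ hτ hP β hβ

end Pool.Agent.Results.MP_1c8ed6_co.BalancedOrientation
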