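import Mathlib
import Pool.Agent.Lib.MP_1c8ed6_co.H57Upper
import Pool.Agent.Lib.MP_1c8ed6_co.H57Gadget

namespace Pool.Agent.Results.MP_1c8ed6_co.StarThreshold

open Pool.Agent.Lib.MP_1c8ed6_co

/-- For `m ≥ 8` the least `k` such that every finite simple `k`-edge-connected graph whose number
of edges is divisible by `m` splits into copies of the star `K_{1,m}` is exactly `2m`. -/
theorem result (m : ℕ) (hm : 8 ≤ m) :
    IsLeast {k : ℕ | ∀ (V : Type) [Fintype V] [DecidableEq V] (G : SimpleGraph V)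
      [DecidableRel G.Adj], G.IsEdgeConnected k → m ∣ G.edgeFinset.card →
      ∃ (n : ℕ) (H : Fin n → G.Subgraph),
        (∀ i, Nonempty (SimpleGraph.starGraph (0 : Fin (m + 1)) ≃g (H i).coe)) ∧
        Pairwise (fun i j => Disjoint (H i).edgeSet (H j).edgeSet) ∧
        ∀ e ∈ G.edgeSet, ∃ i, e ∈ (H i).edgeSet} (2 * m) := by
  refine ⟨fun V _ _ G _ hG hd => star_upper m V G hG hd, fun k hk => ?_⟩
  by_contra hlt
  obtain ⟨X, _, _, G, _, hG, hd, hno⟩ := star_lower hm
  obtain ⟨n, H, h1, h2, h3⟩ := hk X G (fun u v => (hG u v).anti (by omega)) hd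
  obtain ⟨o, ho1, ho2⟩ := orient_of_decomp H h1 h2 h3
  exact hno o ho1 ho2

end Pool.Agent.Results.MP_1c8ed6_co.StarThreshold
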