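import Mathlib
import Pool.Agent.Lib.MP_1c8ed6_co.Star

namespace Pool.Agent.Results.MP_1c8ed6_co.Stars

/-- The Barat-Gerbner-Thomasse conjecture holds for every star `T = K_{1,m}`. -/
theorem result :
    ∀ {V : Type} [Fintype V] [DecidableEq V] (G : SimpleGraph V) [DecidableRel G.Adj]
      {W : Type} [Fintype W] [DecidableEq W] (c : W),
      (∃ F : Fin (SimpleGraph.starGraph c).edgeFinset.card → SimpleGraph V,
          (∀ i, F i ≤ G ∧ (F i).IsTree) ∧
          Pairwise (fun i j => Disjoint (F i) (F j))) →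
      (SimpleGraph.starGraph c).edgeFinset.card ∣ G.edgeFinset.card →
      ∃ (n : ℕ) (H : Fin n → G.Subgraph),
        (∀ i, Nonempty (SimpleGraph.starGraph c ≃g (H i).coe)) ∧
        Pairwise (fun i j => Disjoint (H i).edgeSet (H j).edgeSet) ∧
        (∀ e ∈ G.edgeSet, ∃ i, e ∈ (H i).edgeSet) :=
  fun G _ _ _ _ c hT hd => Pool.Agent.Lib.MP_1c8ed6_co.star_decomposition G c hT hd

end Pool.Agent.Results.MP_1c8ed6_co.Stars
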